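import Pool.Agent.Lib.MP_28303a_al.HIG.Iface
import Mathlib.GroupTheory.FreeGroup.CyclicallyReduced

/-! # Module BASTF: the base group is torsionfree -/

set_option autoImplicit false

namespace Pool.Agent.NegK.Hig.H22

open SemidirectProduct

theorem torsionFree_free (α : Type) : TorsionFree (FreeGroup α) := by
  intro g n hn hg
  have h1 : g ^ n = 1 ^ n := by rw [hg, one_pow]
  exact (pow_left_injective hn.ne') h1

theorem torsionFree_semidirect (N H : Type) [Group N] [Group H] (φ : H →* MulAut N)
    (hN : TorsionFree N) (hH : TorsionFree H) : TorsionFree (N ⋊[φ] H) := by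
  intro g n hn hg
  have h1 : (rightHom (φ := φ) g) ^ n = 1 := by
    rw [← map_pow, hg, map_one]
  have h2 : g.right = 1 := hH _ n hn h1
  have h3 : g = inl g.left := by
    refine SemidirectProduct.ext ?_ ?_
    · rfl
    · rw [h2]; rfl
  have h4 : (inl (g.left ^ n) : N ⋊[φ] H) = inl 1 := by
    rw [map_pow, ← h3, hg, map_one]
  have h5 : g.left ^ n = 1 := inl_injective h4
  have h6 : g.left = 1 := hN _ n hn h5
  rw [h3, h6, map_one]

theorem bastf : BastfStatement := by
  intro S J
  refine torsionFree_semidirect _ _ _ (torsionFree_free _) ?_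
  intro v n hn hv
  have h1 : (n : ℕ) • Multiplicative.toAdd v = 0 := by
    rw [← toAdd_pow, hv, toAdd_one]
  have h2 : Multiplicative.toAdd v = 0 := by
    funext j
    have h3 := congrFun h1 j
    rw [Pi.smul_apply, Pi.zero_apply] at h3
    rw [Pi.zero_apply]
    rw [nsmul_eq_mul] at h3
    rcases mul_eq_zero.1 h3 with h4 | h4
    · exfalso
      have h5 : n = 0 := by exact_mod_cast h4
      omega
    · exact h4
  rw [← ofAdd_toAdd v, h2, ofAdd_zero]

end Pool.Agent.NegK.Hig.H22
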